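import Mathlib

set_option autoImplicit false

/-!
# The square tiling admits markings with any number of spiral arms
-/

namespace Pool.Agent.Results.MP_ca213f_co.AllArms

/-- The Euclidean plane. -/
abbrev Plane : Type := EuclideanSpace ℝ (Fin 2)

/-- The closed unit square with lower left corner `(a, b)`. -/
def tileAt (a b : ℤ) : Set Plane :=
  {z | (a ≤ z 0 ∧ z 0 ≤ a + 1) ∧ (b ≤ z 1 ∧ z 1 ≤ b + 1)}

/-- The prototile, the unit square. -/
def proto : Set Plane := tileAt 0 0

/-- An arc: a homeomorphic image of the closed unit interval. -/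
def IsArc (A : Set Plane) : Prop :=
  ∃ γ : Set.Icc (0 : ℝ) 1 → Plane, Topology.IsEmbedding γ ∧ Set.range γ = A

/-- An unbounded simple curve: an unbounded homeomorphic image of `ℝ` or of `[0, ∞)`. -/
def IsUnboundedCurve (C : Set Plane) : Prop :=
  ¬ Bornology.IsBounded C ∧
    ((∃ γ : ℝ → Plane, Topology.IsEmbedding γ ∧ Set.range γ = C) ∨
      (∃ γ : Set.Ici (0 : ℝ) → Plane, Topology.IsEmbedding γ ∧ Set.range γ = C))

/-- A marking of the square tiling: a finite set `M` of arcs in the prototile, and for every tile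
an isometry mapping the prototile onto it. -/
structure Marking where
  M : Set (Set Plane)
  finite : M.Finite
  arcs : ∀ A ∈ M, IsArc A ∧ A ⊆ proto
  σ : ℤ → ℤ → (Plane ≃ᵢ Plane)
  σ_tile : ∀ a b, σ a b '' proto = tileAt a b

/-- The union of all transported arcs. -/
def Marking.U (m : Marking) : Set Plane := ⋃ a, ⋃ b, ⋃ A ∈ m.M, m.σ a b '' A

/-- The marked tiling is an `n`-armed spiral: the marked set is the union of exactly `n` pairwise
disjoint unbounded simple curves. -/
def Marking.IsSpiral (m : Marking) (n : ℕ) : Prop :=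
  ∃ C : Fin n → Set Plane, (∀ i, IsUnboundedCurve (C i)) ∧
    (∀ i j, i ≠ j → Disjoint (C i) (C j)) ∧ m.U = ⋃ i, C i

/-! ### Lattice points and unit edges -/

/-- The point with coordinates `(u, v)`. -/
noncomputable def pt (u v : ℝ) : Plane := !₂[u, v]

@[simp] theorem pt_zero (u v : ℝ) : pt u v 0 = u := by simp [pt]
@[simp] theorem pt_one (u v : ℝ) : pt u v 1 = v := by simp [pt]

theorem ext2 {z w : Plane} (h0 : z 0 = w 0) (h1 : z 1 = w 1) : z = w := by
  ext i
  fin_cases i
  · exact h0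
  · exact h1

theorem dist_sq (z w : Plane) : dist z w ^ 2 = (z 0 - w 0) ^ 2 + (z 1 - w 1) ^ 2 := by
  rw [EuclideanSpace.dist_eq, Real.sq_sqrt (by positivity)]
  simp [Real.dist_eq]

abbrev V := ℤ × ℤ

/-- a lattice point as a point of the plane -/
noncomputable def lp (u : V) : Plane := pt u.1 u.2

/-- adjacency in the square lattice -/
def Adj (u v : V) : Prop :=
  (u.1 = v.1 ∧ (u.2 = v.2 + 1 ∨ v.2 = u.2 + 1)) ∨ (u.2 = v.2 ∧ (u.1 = v.1 + 1 ∨ v.1 = u.1 + 1))

/-- the point at parameter `t` on the edge from `u` to `v` -/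
noncomputable def lerp (u v : V) (t : ℝ) : Plane :=
  pt ((1 - t) * u.1 + t * v.1) ((1 - t) * u.2 + t * v.2)

/-- the closed edge -/
def edge (u v : V) : Set Plane := {z | ∃ t : ℝ, 0 ≤ t ∧ t ≤ 1 ∧ z = lerp u v t}

theorem lerp_zero (u v : V) : lerp u v 0 = lp u := by
  apply ext2 <;> simp [lerp, lp]

theorem lerp_one (u v : V) : lerp u v 1 = lp v := by
  apply ext2 <;> simp [lerp, lp]

theorem lp_inj {u v : V} (h : lp u = lp v) : u = v := by
  have h0 := congrArg (fun z : Plane => z 0) h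
  have h1 := congrArg (fun z : Plane => z 1) h
  simp only [lp, pt_zero, pt_one] at h0 h1
  exact Prod.ext (by exact_mod_cast h0) (by exact_mod_cast h1)

theorem lerp_inj {u v : V} (h : Adj u v) {s t : ℝ} (he : lerp u v s = lerp u v t) : s = t := by
  have h0 := congrArg (fun z : Plane => z 0) he
  have h1 := congrArg (fun z : Plane => z 1) he
  simp only [lerp, pt_zero, pt_one] at h0 h1
  obtain ⟨u1, u2⟩ := u
  obtain ⟨v1, v2⟩ := v
  simp only [Adj] at h
  simp only at h0 h1
  rcases h with ⟨rfl, rfl | rfl⟩ | ⟨rfl, rfl | rfl⟩ <;> push_cast at h0 h1 <;> linarith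

/-- Two lattice edges sharing a point are equal or the point is a common end point. -/
theorem edges_meet {u v u' v' : V} (h : Adj u v) (h' : Adj u' v') {s t : ℝ} (hs : 0 ≤ s)
    (hs' : s < 1) (ht : 0 ≤ t) (ht' : t < 1) (he : lerp u v s = lerp u' v' t) :
    (s = 0 ∧ t = 0 ∧ u = u') ∨ (u = u' ∧ v = v') ∨ (u = v' ∧ v = u') := by
  have h0 := congrArg (fun z : Plane => z 0) he
  have h1 := congrArg (fun z : Plane => z 1) he
  simp only [lerp, pt_zero, pt_one] at h0 h1
  obtain ⟨u1, u2⟩ := u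
  obtain ⟨v1, v2⟩ := v
  obtain ⟨w1, w2⟩ := u'
  obtain ⟨x1, x2⟩ := v'
  simp only [Adj] at h h'
  simp only at h0 h1
  -- an integer strictly between -1 and 1 is zero
  have hz : ∀ (a : ℤ), (-1 : ℝ) < a → (a : ℝ) < 1 → a = 0 := by
    intro a h1 h2
    have h1' : (-1 : ℤ) < a := by exact_mod_cast h1
    have h2' : a < (1 : ℤ) := by exact_mod_cast h2
    omega
  have hz2 : ∀ (a : ℤ), (-2 : ℝ) < a → (a : ℝ) < 1 → a = 0 ∨ a = -1 := by
    intro a h1 h2
    have h1' : (-2 : ℤ) < a := by exact_mod_cast h1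
    have h2' : a < (1 : ℤ) := by exact_mod_cast h2
    omega
  rcases h with ⟨rfl, rfl | rfl⟩ | ⟨rfl, rfl | rfl⟩ <;>
    rcases h' with ⟨rfl, rfl | rfl⟩ | ⟨rfl, rfl | rfl⟩ <;> push_cast at h0 h1
  -- vertical down, vertical down
  · have e0 := hz (u1 - w1) (by push_cast; linarith) (by push_cast; linarith)
    have e1 := hz (v2 - x2) (by push_cast; linarith) (by push_cast; linarith)
    right; left
    simp only [Prod.mk.injEq]
    omega
  · have e0 := hz (u1 - w1) (by push_cast; linarith) (by push_cast; linarith)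
    rcases hz2 (w2 - (v2 + 1)) (by push_cast; linarith) (by push_cast; linarith) with e1 | e1
    · have e2 : (w2 : ℝ) = v2 + 1 := by
        have : w2 = v2 + 1 := by omega
        exact_mod_cast this
      left
      refine ⟨by linarith, by linarith, ?_⟩
      simp only [Prod.mk.injEq]
      omega
    · right; right
      simp only [Prod.mk.injEq]
      omega
  · have e1 := hz (v2 + 1 - w2) (by push_cast; linarith) (by push_cast; linarith)
    have e0 := hz (u1 - (x1 + 1)) (by push_cast; linarith) (by push_cast; linarith)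
    have e2 : (w2 : ℝ) = v2 + 1 := by
      have : w2 = v2 + 1 := by omega
      exact_mod_cast this
    have e3 : (u1 : ℝ) = x1 + 1 := by
      have : u1 = x1 + 1 := by omega
      exact_mod_cast this
    left
    refine ⟨by linarith, by linarith, ?_⟩
    simp only [Prod.mk.injEq]
    omega
  · have e1 := hz (v2 + 1 - w2) (by push_cast; linarith) (by push_cast; linarith)
    have e0 := hz (u1 - w1) (by push_cast; linarith) (by push_cast; linarith)
    have e2 : (w2 : ℝ) = v2 + 1 := by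
      have : w2 = v2 + 1 := by omega
      exact_mod_cast this
    have e3 : (u1 : ℝ) = w1 := by
      have : u1 = w1 := by omega
      exact_mod_cast this
    left
    refine ⟨by linarith, by linarith, ?_⟩
    simp only [Prod.mk.injEq]
    omega
  -- vertical up
  · have e0 := hz (u1 - w1) (by push_cast; linarith) (by push_cast; linarith)
    rcases hz2 (u2 - (x2 + 1)) (by push_cast; linarith) (by push_cast; linarith) with e1 | e1
    · have e2 : (u2 : ℝ) = x2 + 1 := by
        have : u2 = x2 + 1 := by omega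
        exact_mod_cast this
      left
      refine ⟨by linarith, by linarith, ?_⟩
      simp only [Prod.mk.injEq]
      omega
    · right; right
      simp only [Prod.mk.injEq]
      omega
  · have e0 := hz (u1 - w1) (by push_cast; linarith) (by push_cast; linarith)
    have e1 := hz (u2 - w2) (by push_cast; linarith) (by push_cast; linarith)
    right; left
    simp only [Prod.mk.injEq]
    omega
  · have e1 := hz (u2 - w2) (by push_cast; linarith) (by push_cast; linarith)
    have e0 := hz (u1 - (x1 + 1)) (by push_cast; linarith) (by push_cast; linarith)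
    have e2 : (u2 : ℝ) = w2 := by
      have : u2 = w2 := by omega
      exact_mod_cast this
    have e3 : (u1 : ℝ) = x1 + 1 := by
      have : u1 = x1 + 1 := by omega
      exact_mod_cast this
    left
    refine ⟨by linarith, by linarith, ?_⟩
    simp only [Prod.mk.injEq]
    omega
  · have e1 := hz (u2 - w2) (by push_cast; linarith) (by push_cast; linarith)
    have e0 := hz (u1 - w1) (by push_cast; linarith) (by push_cast; linarith)
    have e2 : (u2 : ℝ) = w2 := by
      have : u2 = w2 := by omega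
      exact_mod_cast this
    have e3 : (u1 : ℝ) = w1 := by
      have : u1 = w1 := by omega
      exact_mod_cast this
    left
    refine ⟨by linarith, by linarith, ?_⟩
    simp only [Prod.mk.injEq]
    omega
  -- horizontal left
  · have e1 := hz (u2 - (x2 + 1)) (by push_cast; linarith) (by push_cast; linarith)
    have e0 := hz (v1 + 1 - w1) (by push_cast; linarith) (by push_cast; linarith)
    have e2 : (u2 : ℝ) = x2 + 1 := by
      have : u2 = x2 + 1 := by omega
      exact_mod_cast this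
    have e3 : (w1 : ℝ) = v1 + 1 := by
      have : w1 = v1 + 1 := by omega
      exact_mod_cast this
    left
    refine ⟨by linarith, by linarith, ?_⟩
    simp only [Prod.mk.injEq]
    omega
  · have e1 := hz (u2 - w2) (by push_cast; linarith) (by push_cast; linarith)
    have e0 := hz (v1 + 1 - w1) (by push_cast; linarith) (by push_cast; linarith)
    have e2 : (u2 : ℝ) = w2 := by
      have : u2 = w2 := by omega
      exact_mod_cast this
    have e3 : (w1 : ℝ) = v1 + 1 := by
      have : w1 = v1 + 1 := by omega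
      exact_mod_cast this
    left
    refine ⟨by linarith, by linarith, ?_⟩
    simp only [Prod.mk.injEq]
    omega
  · have e0 := hz (v1 - x1) (by push_cast; linarith) (by push_cast; linarith)
    have e1 := hz (u2 - w2) (by push_cast; linarith) (by push_cast; linarith)
    right; left
    simp only [Prod.mk.injEq]
    omega
  · have e0 := hz (u2 - w2) (by push_cast; linarith) (by push_cast; linarith)
    rcases hz2 (w1 - (v1 + 1)) (by push_cast; linarith) (by push_cast; linarith) with e1 | e1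
    · have e2 : (w1 : ℝ) = v1 + 1 := by
        have : w1 = v1 + 1 := by omega
        exact_mod_cast this
      left
      refine ⟨by linarith, by linarith, ?_⟩
      simp only [Prod.mk.injEq]
      omega
    · right; right
      simp only [Prod.mk.injEq]
      omega
  -- horizontal right
  · have e1 := hz (u2 - (x2 + 1)) (by push_cast; linarith) (by push_cast; linarith)
    have e0 := hz (u1 - w1) (by push_cast; linarith) (by push_cast; linarith)
    have e2 : (u2 : ℝ) = x2 + 1 := by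
      have : u2 = x2 + 1 := by omega
      exact_mod_cast this
    have e3 : (u1 : ℝ) = w1 := by
      have : u1 = w1 := by omega
      exact_mod_cast this
    left
    refine ⟨by linarith, by linarith, ?_⟩
    simp only [Prod.mk.injEq]
    omega
  · have e1 := hz (u2 - w2) (by push_cast; linarith) (by push_cast; linarith)
    have e0 := hz (u1 - w1) (by push_cast; linarith) (by push_cast; linarith)
    have e2 : (u2 : ℝ) = w2 := by
      have : u2 = w2 := by omega
      exact_mod_cast this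
    have e3 : (u1 : ℝ) = w1 := by
      have : u1 = w1 := by omega
      exact_mod_cast this
    left
    refine ⟨by linarith, by linarith, ?_⟩
    simp only [Prod.mk.injEq]
    omega
  · have e0 := hz (u2 - w2) (by push_cast; linarith) (by push_cast; linarith)
    rcases hz2 (u1 - (x1 + 1)) (by push_cast; linarith) (by push_cast; linarith) with e1 | e1
    · have e2 : (u1 : ℝ) = x1 + 1 := by
        have : u1 = x1 + 1 := by omega
        exact_mod_cast this
      left
      refine ⟨by linarith, by linarith, ?_⟩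
      simp only [Prod.mk.injEq]
      omega
    · right; right
      simp only [Prod.mk.injEq]
      omega
  · have e0 := hz (u1 - w1) (by push_cast; linarith) (by push_cast; linarith)
    have e1 := hz (u2 - w2) (by push_cast; linarith) (by push_cast; linarith)
    right; left
    simp only [Prod.mk.injEq]
    omega

/-! ### The curve of a lattice path -/

/-- the piecewise linear parametrisation -/
noncomputable def curve (p : ℕ → V) (t : Set.Ici (0 : ℝ)) : Plane :=
  lerp (p ⌊(t : ℝ)⌋₊) (p (⌊(t : ℝ)⌋₊ + 1)) ((t : ℝ) - ⌊(t : ℝ)⌋₊)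

theorem curve_of_mem (p : ℕ → V) (k : ℕ) (t : Set.Ici (0 : ℝ)) (h1 : (k : ℝ) ≤ t)
    (h2 : (t : ℝ) ≤ k + 1) : curve p t = lerp (p k) (p (k + 1)) ((t : ℝ) - k) := by
  rcases h2.eq_or_lt with h | h
  · have hf : ⌊(t : ℝ)⌋₊ = k + 1 := by
      rw [h]
      exact_mod_cast Nat.floor_natCast (k + 1)
    rw [curve, hf, h]
    have e1 : ((k : ℝ) + 1 - ((k + 1 : ℕ) : ℝ)) = 0 := by push_cast; ring
    have e2 : ((k : ℝ) + 1 - k) = 1 := by ring
    rw [e1, e2, lerp_zero, lerp_one]
  · have hf : ⌊(t : ℝ)⌋₊ = k := (Nat.floor_eq_iff t.2).2 ⟨h1, h⟩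
    rw [curve, hf]

theorem continuous_lerp (u v : V) : Continuous (lerp u v) := by
  have : lerp u v = fun t : ℝ => (1 - t) • lp u + t • lp v := by
    funext t
    apply ext2 <;> simp [lerp, lp]
  rw [this]
  fun_prop

theorem curve_continuous (p : ℕ → V) : Continuous (curve p) := by
  have hlf : LocallyFinite (fun k : ℕ => {t : Set.Ici (0 : ℝ) | (k : ℝ) ≤ t ∧ (t : ℝ) ≤ k + 1}) := by
    intro t
    refine ⟨{s | (s : ℝ) < t + 1}, ?_, ?_⟩
    · apply IsOpen.mem_nhds
      · exact isOpen_lt continuous_subtype_val continuous_const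
      · simp
    · obtain ⟨N, hN⟩ := exists_nat_gt ((t : ℝ) + 1)
      apply (Set.finite_le_nat N).subset
      rintro k ⟨s, ⟨hs1, hs2⟩, hs3⟩
      have : (k : ℝ) ≤ N := by
        have hs3' : (s : ℝ) < t + 1 := hs3
        linarith
      exact_mod_cast this
  refine hlf.continuous ?_ ?_ ?_
  · rw [Set.eq_univ_iff_forall]
    intro t
    refine Set.mem_iUnion.2 ⟨⌊(t : ℝ)⌋₊, Nat.floor_le t.2, (Nat.lt_floor_add_one _).le⟩
  · intro k
    exact (isClosed_le continuous_const continuous_subtype_val).inter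
      (isClosed_le continuous_subtype_val continuous_const)
  · intro k
    have : ContinuousOn (fun t : Set.Ici (0 : ℝ) => lerp (p k) (p (k + 1)) ((t : ℝ) - k))
        {t : Set.Ici (0 : ℝ) | (k : ℝ) ≤ t ∧ (t : ℝ) ≤ k + 1} := by
      apply Continuous.continuousOn
      exact (continuous_lerp _ _).comp (continuous_subtype_val.sub continuous_const)
    exact this.congr fun t ht => curve_of_mem p k t ht.1 ht.2

theorem curve_injective {p : ℕ → V} (hp : Function.Injective p)
    (hadj : ∀ k, Adj (p k) (p (k + 1))) : Function.Injective (curve p) := by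
  intro s t h
  have hs := Nat.floor_le (show (0 : ℝ) ≤ s from s.2)
  have hs' := Nat.lt_floor_add_one (s : ℝ)
  have ht := Nat.floor_le (show (0 : ℝ) ≤ t from t.2)
  have ht' := Nat.lt_floor_add_one (t : ℝ)
  unfold curve at h
  rcases edges_meet (hadj _) (hadj _) (by linarith) (by linarith) (by linarith) (by linarith) h with
    ⟨h1, h2, h3⟩ | ⟨h3, -⟩ | ⟨h3, h4⟩
  · have h4 := hp h3
    apply Subtype.ext
    rw [h4] at h1
    linarith
  · have h4 := hp h3
    rw [h4] at h
    have := lerp_inj (hadj _) h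
    apply Subtype.ext
    rw [h4] at hs
    linarith
  · have h5 := hp h3
    have h6 := hp h4
    omega

theorem finite_lattice (R : ℝ) : {u : V | ‖lp u‖ ≤ R}.Finite := by
  obtain ⟨N, hN⟩ := exists_nat_gt R
  apply (Set.finite_Icc ((-N, -N) : V) ((N, N) : V)).subset
  rintro ⟨a, b⟩ h
  have h' : ‖lp (a, b)‖ ≤ R := h
  have e : ‖lp (a, b)‖ ^ 2 = (a : ℝ) ^ 2 + (b : ℝ) ^ 2 := by
    have := dist_sq (lp (a, b)) 0
    rw [dist_zero_right] at this
    rw [this]
    simp [lp]
  have h0 : 0 ≤ ‖lp (a, b)‖ := norm_nonneg _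
  have h2 : (a : ℝ) ^ 2 + (b : ℝ) ^ 2 ≤ (N : ℝ) ^ 2 := by
    rw [← e]
    exact pow_le_pow_left₀ h0 (by linarith) 2
  have h3 : a ^ 2 + b ^ 2 ≤ (N : ℤ) ^ 2 := by exact_mod_cast h2
  have ha : |a| ≤ N := by
    apply abs_le_of_sq_le_sq _ (by positivity)
    nlinarith
  have hb : |b| ≤ N := by
    apply abs_le_of_sq_le_sq _ (by positivity)
    nlinarith
  rw [abs_le] at ha hb
  exact ⟨⟨ha.1, hb.1⟩, ⟨ha.2, hb.2⟩⟩

theorem dist_lerp_le {u v : V} (h : Adj u v) {t : ℝ} (h0 : 0 ≤ t) (h1 : t ≤ 1) :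
    dist (lerp u v t) (lp u) ≤ 1 := by
  have e := dist_sq (lerp u v t) (lp u)
  have h2 : dist (lerp u v t) (lp u) ^ 2 ≤ 1 ^ 2 := by
    rw [e]
    simp only [lerp, lp, pt_zero, pt_one]
    obtain ⟨u1, u2⟩ := u
    obtain ⟨v1, v2⟩ := v
    simp only [Adj] at h
    simp only
    rcases h with ⟨rfl, rfl | rfl⟩ | ⟨rfl, rfl | rfl⟩ <;> push_cast <;> nlinarith
  exact (sq_le_sq₀ dist_nonneg one_pos.le).1 h2

theorem curve_isClosedEmbedding {p : ℕ → V} (hp : Function.Injective p)
    (hadj : ∀ k, Adj (p k) (p (k + 1))) : Topology.IsClosedEmbedding (curve p) := by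
  have hproper : Filter.Tendsto (curve p) (Filter.cocompact _) (Filter.cocompact _) := by
    rw [Filter.hasBasis_cocompact.tendsto_iff Filter.hasBasis_cocompact]
    intro K hK
    obtain ⟨R, hR⟩ := hK.isBounded.subset_closedBall (0 : Plane)
    have hfin : {k : ℕ | ‖lp (p k)‖ ≤ R + 1}.Finite :=
      (finite_lattice (R + 1)).preimage hp.injOn
    obtain ⟨B, hB⟩ := hfin.bddAbove
    refine ⟨{t : Set.Ici (0 : ℝ) | (t : ℝ) ≤ B + 1}, ?_, ?_⟩
    · have : {t : Set.Ici (0 : ℝ) | (t : ℝ) ≤ B + 1} =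
          Subtype.val ⁻¹' (Set.Icc (0 : ℝ) (B + 1)) := by
        ext t
        simp only [Set.mem_ofPred_eq, Set.mem_preimage, Set.mem_Icc]
        exact ⟨fun h => ⟨t.2, h⟩, fun h => h.2⟩
      rw [this]
      exact (isClosed_Ici.isClosedEmbedding_subtypeVal).isCompact_preimage isCompact_Icc
    · intro t ht hmem
      have ht' : (B : ℝ) + 1 < t := by
        simpa using ht
      have h1 := hR hmem
      rw [mem_closedBall_zero_iff] at h1
      have hs := Nat.floor_le (show (0 : ℝ) ≤ t from t.2)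
      have hs' := Nat.lt_floor_add_one (t : ℝ)
      have h2 : dist (curve p t) (lp (p ⌊(t : ℝ)⌋₊)) ≤ 1 :=
        dist_lerp_le (hadj _) (by linarith) (by linarith)
      have h3 : ‖lp (p ⌊(t : ℝ)⌋₊)‖ ≤ R + 1 := by
        have h4 : ‖lp (p ⌊(t : ℝ)⌋₊)‖ ≤ ‖curve p t‖ + dist (curve p t) (lp (p ⌊(t : ℝ)⌋₊)) := by
          rw [dist_comm, dist_eq_norm]
          have := norm_add_le (curve p t) (lp (p ⌊(t : ℝ)⌋₊) - curve p t)
          rw [add_sub_cancel] at this
          exact this
        linarith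
      have h5 := hB h3
      have h6 : (⌊(t : ℝ)⌋₊ : ℝ) ≤ B := by exact_mod_cast h5
      linarith
  have hprop : IsProperMap (curve p) :=
    isProperMap_iff_tendsto_cocompact.2 ⟨curve_continuous p, hproper⟩
  exact Topology.IsClosedEmbedding.of_continuous_injective_isClosedMap (curve_continuous p)
    (curve_injective hp hadj) hprop.isClosedMap

theorem range_curve (p : ℕ → V) : Set.range (curve p) = ⋃ k, edge (p k) (p (k + 1)) := by
  ext z
  simp only [Set.mem_range, Set.mem_iUnion]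
  constructor
  · rintro ⟨t, rfl⟩
    have hs := Nat.floor_le (show (0 : ℝ) ≤ t from t.2)
    have hs' := Nat.lt_floor_add_one (t : ℝ)
    exact ⟨⌊(t : ℝ)⌋₊, (t : ℝ) - ⌊(t : ℝ)⌋₊, by linarith, by linarith, rfl⟩
  · rintro ⟨k, t, h0, h1, rfl⟩
    refine ⟨⟨k + t, ?_⟩, ?_⟩
    · show (0 : ℝ) ≤ k + t
      positivity
    · rw [curve_of_mem p k ⟨k + t, _⟩ (by simp; exact h0) (by simp; exact h1)]
      congr 1
      simp

theorem unbounded_of_injective {p : ℕ → V} (hp : Function.Injective p) :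
    ¬ Bornology.IsBounded (⋃ k, edge (p k) (p (k + 1))) := by
  intro hb
  obtain ⟨R, hR⟩ := hb.subset_closedBall (0 : Plane)
  have hfin : {k : ℕ | ‖lp (p k)‖ ≤ R}.Finite := (finite_lattice R).preimage hp.injOn
  apply Set.infinite_univ.not_finite (α := ℕ) ?_
  apply hfin.subset
  intro k _
  have h1 : lp (p k) ∈ Metric.closedBall (0 : Plane) R := by
    apply hR
    exact Set.mem_iUnion.2 ⟨k, 0, le_refl _, zero_le_one, (lerp_zero _ _).symm⟩
  rwa [mem_closedBall_zero_iff] at h1

theorem isUnboundedCurve_path {p : ℕ → V} (hp : Function.Injective p)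
    (hadj : ∀ k, Adj (p k) (p (k + 1))) :
    IsUnboundedCurve (⋃ k, edge (p k) (p (k + 1))) :=
  ⟨unbounded_of_injective hp, Or.inr ⟨curve p, (curve_isClosedEmbedding hp hadj).isEmbedding,
    range_curve p⟩⟩

/-! ### The spiral -/

/-- the successor of a lattice point on its arm -/
def nxt (n : ℕ) (u : V) : V :=
  if 1 ≤ u.1 ∧ -u.1 < u.2 ∧ u.2 ≤ u.1 then (u.1, u.2 - 1)
  else if u.2 ≤ -1 ∧ u.2 < u.1 ∧ u.1 ≤ -u.2 then (u.1 - 1, u.2)
  else if u.1 ≤ 0 ∧ u.1 ≤ u.2 ∧ u.2 < n - u.1 then (u.1, u.2 + 1)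
  else (u.1 + 1, u.2)

theorem nxt_adj (n : ℕ) (u : V) : Adj u (nxt n u) := by
  unfold nxt Adj
  split_ifs <;> simp

theorem nxt_injective {n : ℕ} (hn : 1 ≤ n) : Function.Injective (nxt n) := by
  rintro ⟨a, b⟩ ⟨c, d⟩ h
  unfold nxt at h
  simp only at h
  split_ifs at h <;> simp only [Prod.mk.injEq] at h ⊢ <;> omega

/-- the starting points of the arms -/
def start {n : ℕ} (i : Fin n) : V := if i.val = 0 then (0, 0) else (1, i.val)

theorem start_injective {n : ℕ} : Function.Injective (start (n := n)) := by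
  intro i j h
  unfold start at h
  apply Fin.ext
  split_ifs at h <;> simp only [Prod.mk.injEq] at h <;> omega

theorem start_not_nxt {n : ℕ} (i : Fin n) (u : V) : nxt n u ≠ start i := by
  obtain ⟨a, b⟩ := u
  intro h
  have hi := i.2
  unfold nxt start at h
  simp only at h
  split_ifs at h <;> simp only [Prod.mk.injEq] at h <;> omega

/-- the lattice points of an arm -/
def arm {n : ℕ} (i : Fin n) (k : ℕ) : V := (nxt n)^[k] (start i)

theorem arm_succ {n : ℕ} (i : Fin n) (k : ℕ) : arm i (k + 1) = nxt n (arm i k) := by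
  rw [arm, Function.iterate_succ_apply', arm]

theorem arm_injective {n : ℕ} (hn : 1 ≤ n) {i j : Fin n} {k l : ℕ} (h : arm i k = arm j l) :
    i = j ∧ k = l := by
  have key : ∀ (k l : ℕ) (i j : Fin n), k ≤ l → arm i k = arm j l → i = j ∧ k = l := by
    intro k l i j hkl h
    obtain ⟨m, rfl⟩ := Nat.exists_eq_add_of_le hkl
    unfold arm at h
    rw [Function.iterate_add_apply] at h
    have h1 := ((nxt_injective hn).iterate k) h
    cases m with
    | zero => exact ⟨start_injective h1, rfl⟩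
    | succ m =>
      rw [Function.iterate_succ_apply'] at h1
      exact absurd h1.symm (start_not_nxt i _)
  rcases le_total k l with hkl | hkl
  · exact key k l i j hkl h
  · obtain ⟨h1, h2⟩ := key l k j i hkl h.symm
    exact ⟨h1.symm, h2.symm⟩

/-- ring, phase and offset of a lattice point -/
def levn (n : ℕ) (u : V) : ℕ × ℕ × ℕ :=
  if 1 ≤ u.1 ∧ -u.1 < u.2 ∧ u.2 ≤ u.1 then (u.1.toNat, 1, (u.1 - u.2).toNat)
  else if u.2 ≤ -1 ∧ u.2 < u.1 ∧ u.1 ≤ -u.2 then ((-u.2).toNat, 2, (-u.2 - u.1).toNat)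
  else if u.1 ≤ 0 ∧ u.1 ≤ u.2 ∧ u.2 < n - u.1 then ((-u.1).toNat, 3, (u.2 - u.1).toNat)
  else (u.2.toNat, 0, (u.1 + u.2).toNat)

def lexlt (a b : ℕ × ℕ × ℕ) : Prop :=
  a.1 < b.1 ∨ (a.1 = b.1 ∧ (a.2.1 < b.2.1 ∨ (a.2.1 = b.2.1 ∧ a.2.2 < b.2.2)))

theorem lexlt_wf : WellFounded lexlt := by
  have h : WellFounded (Prod.Lex (· < · : ℕ → ℕ → Prop)
      (Prod.Lex (· < · : ℕ → ℕ → Prop) (· < · : ℕ → ℕ → Prop))) :=
    WellFounded.prod_lex wellFounded_lt (WellFounded.prod_lex wellFounded_lt wellFounded_lt)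
  refine Subrelation.wf ?_ h
  intro a b hab
  rw [Prod.lex_def, Prod.lex_def]
  exact hab

/-- Every lattice point is a starting point or has a predecessor of smaller level. -/
theorem exists_pred {n : ℕ} (hn : 1 ≤ n) (u : V) :
    (∃ i : Fin n, start i = u) ∨ ∃ v : V, nxt n v = u ∧ lexlt (levn n v) (levn n u) := by
  obtain ⟨x, y⟩ := u
  by_cases h0 : x = 0 ∧ y = 0
  · left
    exact ⟨⟨0, by omega⟩, by simp [start, h0.1, h0.2]⟩
  by_cases h1 : x = 1 ∧ 1 ≤ y ∧ y < n
  · left
    refine ⟨⟨y.toNat, by omega⟩, ?_⟩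
    unfold start
    simp only
    rw [if_neg (by omega)]
    simp only [Prod.mk.injEq]
    omega
  right
  by_cases p1 : 1 ≤ x ∧ -x ≤ y ∧ y ≤ x - 1
  · refine ⟨(x, y + 1), ?_, ?_⟩
    · unfold nxt
      simp only
      rw [if_pos (by omega)]
      simp
    · unfold levn lexlt
      simp only
      rw [if_pos (by omega)]
      split_ifs <;> simp only [true_and] <;> omega
  by_cases p2 : y ≤ -1 ∧ y ≤ x ∧ x ≤ -y - 1
  · refine ⟨(x + 1, y), ?_, ?_⟩
    · unfold nxt
      simp only
      rw [if_neg (by omega), if_pos (by omega)]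
      simp
    · unfold levn lexlt
      simp only
      rw [if_neg (show ¬ (1 ≤ x + 1 ∧ -(x + 1) < y ∧ y ≤ x + 1) by omega),
        if_pos (show y ≤ -1 ∧ y < x + 1 ∧ x + 1 ≤ -y by omega)]
      split_ifs <;> simp only [true_and] <;> omega
  by_cases p3 : x ≤ 0 ∧ x + 1 ≤ y ∧ y ≤ n - x
  · refine ⟨(x, y - 1), ?_, ?_⟩
    · unfold nxt
      simp only
      rw [if_neg (by omega), if_neg (by omega), if_pos (by omega)]
      simp
    · unfold levn lexlt
      simp only
      rw [if_neg (show ¬ (1 ≤ x ∧ -x < y - 1 ∧ y - 1 ≤ x) by omega),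
        if_neg (show ¬ (y - 1 ≤ -1 ∧ y - 1 < x ∧ x ≤ -(y - 1)) by omega),
        if_pos (show x ≤ 0 ∧ x ≤ y - 1 ∧ y - 1 < n - x by omega)]
      split_ifs <;> simp only [true_and] <;> omega
  · refine ⟨(x - 1, y), ?_, ?_⟩
    · unfold nxt
      simp only
      rw [if_neg (by omega), if_neg (by omega), if_neg (by omega)]
      simp
    · unfold levn lexlt
      simp only
      rw [if_neg (show ¬ (1 ≤ x - 1 ∧ -(x - 1) < y ∧ y ≤ x - 1) by omega),
        if_neg (show ¬ (y ≤ -1 ∧ y < x - 1 ∧ x - 1 ≤ -y) by omega),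
        if_neg (show ¬ (x - 1 ≤ 0 ∧ x - 1 ≤ y ∧ y < n - (x - 1)) by omega)]
      split_ifs <;> simp only [true_and] <;> omega

theorem covered {n : ℕ} (hn : 1 ≤ n) (u : V) : ∃ (i : Fin n) (k : ℕ), arm i k = u := by
  have hwf : WellFounded (InvImage lexlt (levn n)) := InvImage.wf _ lexlt_wf
  induction u using hwf.induction with
  | _ u ih =>
    rcases exists_pred hn u with ⟨i, hi⟩ | ⟨v, hv, hlt⟩
    · exact ⟨i, 0, hi⟩
    · obtain ⟨i, k, hk⟩ := ih v hlt
      exact ⟨i, k + 1, by rw [arm_succ, hk, hv]⟩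

/-- The lower left corner of the face on the outer side of the edge from `u` to its successor. -/
def face (n : ℕ) (u : V) : V :=
  if 1 ≤ u.1 ∧ -u.1 < u.2 ∧ u.2 ≤ u.1 then (u.1, u.2 - 1)
  else if u.2 ≤ -1 ∧ u.2 < u.1 ∧ u.1 ≤ -u.2 then (u.1 - 1, u.2 - 1)
  else if u.1 ≤ 0 ∧ u.1 ≤ u.2 ∧ u.2 < n - u.1 then (u.1 - 1, u.2)
  else (u.1, u.2)

theorem face_injective {n : ℕ} (hn : 1 ≤ n) : Function.Injective (face n) := by
  rintro ⟨a, b⟩ ⟨c, d⟩ h
  unfold face at h
  simp only at h
  split_ifs at h <;> simp only [Prod.mk.injEq] at h ⊢ <;> omega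

/-- `{u, v}` is a side of the face with lower left corner `f`. -/
def IsSide (f u v : V) : Prop :=
  (u = f ∧ v = (f.1 + 1, f.2)) ∨ (v = f ∧ u = (f.1 + 1, f.2)) ∨
  (u = f ∧ v = (f.1, f.2 + 1)) ∨ (v = f ∧ u = (f.1, f.2 + 1)) ∨
  (u = (f.1, f.2 + 1) ∧ v = (f.1 + 1, f.2 + 1)) ∨ (v = (f.1, f.2 + 1) ∧ u = (f.1 + 1, f.2 + 1)) ∨
  (u = (f.1 + 1, f.2) ∧ v = (f.1 + 1, f.2 + 1)) ∨ (v = (f.1 + 1, f.2) ∧ u = (f.1 + 1, f.2 + 1))

theorem isSide_face (n : ℕ) (u : V) : IsSide (face n u) u (nxt n u) := by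
  obtain ⟨x, y⟩ := u
  unfold IsSide face nxt
  simp only
  split_ifs <;> simp

theorem exists_side (n : ℕ) (f : V) : ∃ u, IsSide f u (nxt n u) := by
  obtain ⟨a, b⟩ := f
  have hD : ∀ x y : ℤ, 1 ≤ x ∧ -x < y ∧ y ≤ x → nxt n (x, y) = (x, y - 1) := by
    intro x y h
    unfold nxt
    rw [if_pos h]
  have hL : ∀ x y : ℤ, y ≤ -1 ∧ y < x ∧ x ≤ -y → nxt n (x, y) = (x - 1, y) := by
    intro x y h
    unfold nxt
    rw [if_neg (by simp only; omega), if_pos h]
  by_cases c1 : 1 ≤ a ∧ -a < b ∧ b ≤ a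
  · by_cases c2 : b + 1 ≤ a
    · refine ⟨(a, b + 1), ?_⟩
      rw [hD a (b + 1) (by omega)]
      simp [IsSide]
    · refine ⟨(a + 1, b + 1), ?_⟩
      rw [hD (a + 1) (b + 1) (by omega)]
      simp [IsSide]
  by_cases c3 : b ≤ -1 ∧ b < a ∧ a ≤ -b
  · by_cases c4 : a + 1 ≤ -b
    · refine ⟨(a + 1, b), ?_⟩
      rw [hL (a + 1) b (by omega)]
      simp [IsSide]
    · refine ⟨(a, b + 1), ?_⟩
      rw [hD a (b + 1) (by omega)]
      simp [IsSide]
  refine ⟨(a, b), ?_⟩
  unfold nxt
  rw [if_neg c1, if_neg c3]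
  split_ifs
  · simp [IsSide]
  · simp [IsSide]

/-! ### The isometries -/

/-- quarter turn about the origin -/
noncomputable def rotIso : Plane ≃ᵢ Plane where
  toFun z := pt (-z 1) (z 0)
  invFun z := pt (z 1) (-z 0)
  left_inv z := ext2 (by simp) (by simp)
  right_inv z := ext2 (by simp) (by simp)
  isometry_toFun := by
    apply Isometry.of_dist_eq
    intro z w
    have h : dist (pt (-z 1) (z 0)) (pt (-w 1) (w 0)) ^ 2 = dist z w ^ 2 := by
      rw [dist_sq, dist_sq]; simp; ring
    exact (sq_eq_sq₀ dist_nonneg dist_nonneg).1 h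

theorem rotIso_apply (z : Plane) : rotIso z = pt (-z 1) (z 0) := rfl

theorem mem_edge_h {a b : ℤ} {z : Plane} :
    z ∈ edge (a, b) (a + 1, b) ↔ z 1 = b ∧ a ≤ z 0 ∧ z 0 ≤ a + 1 := by
  constructor
  · rintro ⟨t, h0, h1, rfl⟩
    simp only [lerp, pt_zero, pt_one]
    push_cast
    refine ⟨by ring, by nlinarith, by nlinarith⟩
  · rintro ⟨h1, h2, h3⟩
    refine ⟨z 0 - a, by linarith, by linarith, ?_⟩
    apply ext2
    · simp only [lerp, pt_zero]; push_cast; ring
    · simp only [lerp, pt_one, h1]; push_cast; ring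

theorem mem_edge_v {a b : ℤ} {z : Plane} :
    z ∈ edge (a, b) (a, b + 1) ↔ z 0 = a ∧ b ≤ z 1 ∧ z 1 ≤ b + 1 := by
  constructor
  · rintro ⟨t, h0, h1, rfl⟩
    simp only [lerp, pt_zero, pt_one]
    push_cast
    refine ⟨by ring, by nlinarith, by nlinarith⟩
  · rintro ⟨h1, h2, h3⟩
    refine ⟨z 1 - b, by linarith, by linarith, ?_⟩
    apply ext2
    · simp only [lerp, pt_zero, h1]; push_cast; ring
    · simp only [lerp, pt_one]; push_cast; ring

theorem edge_comm (u v : V) : edge u v = edge v u := by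
  ext z
  constructor <;> rintro ⟨t, h0, h1, rfl⟩ <;>
    refine ⟨1 - t, by linarith, by linarith, ?_⟩ <;> apply ext2 <;>
      simp only [lerp, pt_zero, pt_one] <;> ring

theorem mem_proto {z : Plane} : z ∈ proto ↔ (0 ≤ z 0 ∧ z 0 ≤ 1) ∧ (0 ≤ z 1 ∧ z 1 ≤ 1) := by
  simp [proto, tileAt]

/-- For every side of every face there is an isometry mapping the prototile to the face and its
bottom side to that side. -/
theorem exists_iso (f u v : V) (h : IsSide f u v) :
    ∃ g : Plane ≃ᵢ Plane, g '' proto = tileAt f.1 f.2 ∧ g '' edge (0, 0) (1, 0) = edge u v := by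
  obtain ⟨a, b⟩ := f
  have he0 : ∀ z, z ∈ edge (0, 0) (1, 0) ↔ z 1 = 0 ∧ 0 ≤ z 0 ∧ z 0 ≤ 1 := by
    intro z
    have := mem_edge_h (a := 0) (b := 0) (z := z)
    simpa using this
  have hb : ∃ g : Plane ≃ᵢ Plane, g '' proto = tileAt a b ∧
      g '' edge (0, 0) (1, 0) = edge (a, b) (a + 1, b) := by
    let g : Plane ≃ᵢ Plane := IsometryEquiv.addRight (pt a b)
    have hg0 : ∀ z, (g z) 0 = z 0 + a := fun z => by simp [g]
    have hg1 : ∀ z, (g z) 1 = z 1 + b := fun z => by simp [g]
    refine ⟨g, ?_, ?_⟩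
    · ext z
      rw [Set.mem_image]
      constructor
      · rintro ⟨w, hw, rfl⟩
        rw [mem_proto] at hw
        simp only [tileAt, Set.mem_ofPred_eq, hg0, hg1]
        refine ⟨⟨?_, ?_⟩, ⟨?_, ?_⟩⟩ <;> linarith [hw.1.1, hw.1.2, hw.2.1, hw.2.2]
      · rintro ⟨⟨h1, h2⟩, ⟨h3, h4⟩⟩
        refine ⟨pt (z 0 - a) (z 1 - b), ?_, ?_⟩
        · rw [mem_proto]
          simp only [pt_zero, pt_one]
          refine ⟨⟨?_, ?_⟩, ⟨?_, ?_⟩⟩ <;> linarith
        · apply ext2
          · rw [hg0]; simp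
          · rw [hg1]; simp
    · ext z
      rw [Set.mem_image, mem_edge_h]
      constructor
      · rintro ⟨w, hw, rfl⟩
        rw [he0] at hw
        rw [hg0, hg1]
        refine ⟨?_, ?_, ?_⟩ <;> linarith [hw.1, hw.2.1, hw.2.2]
      · rintro ⟨h1, h2, h3⟩
        refine ⟨pt (z 0 - a) (z 1 - b), ?_, ?_⟩
        · rw [he0]
          simp only [pt_zero, pt_one]
          refine ⟨?_, ?_, ?_⟩ <;> linarith
        · apply ext2
          · rw [hg0]; simp
          · rw [hg1]; simp
  have ht : ∃ g : Plane ≃ᵢ Plane, g '' proto = tileAt a b ∧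
      g '' edge (0, 0) (1, 0) = edge (a, b + 1) (a + 1, b + 1) := by
    let g : Plane ≃ᵢ Plane := IsometryEquiv.subLeft (pt (a + 1) (b + 1))
    have hg0 : ∀ z, (g z) 0 = a + 1 - z 0 := fun z => by simp [g]
    have hg1 : ∀ z, (g z) 1 = b + 1 - z 1 := fun z => by simp [g]
    refine ⟨g, ?_, ?_⟩
    · ext z
      rw [Set.mem_image]
      constructor
      · rintro ⟨w, hw, rfl⟩
        rw [mem_proto] at hw
        simp only [tileAt, Set.mem_ofPred_eq, hg0, hg1]
        refine ⟨⟨?_, ?_⟩, ⟨?_, ?_⟩⟩ <;> linarith [hw.1.1, hw.1.2, hw.2.1, hw.2.2]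
      · rintro ⟨⟨h1, h2⟩, ⟨h3, h4⟩⟩
        refine ⟨pt (a + 1 - z 0) (b + 1 - z 1), ?_, ?_⟩
        · rw [mem_proto]
          simp only [pt_zero, pt_one]
          refine ⟨⟨?_, ?_⟩, ⟨?_, ?_⟩⟩ <;> linarith
        · apply ext2
          · rw [hg0]; simp
          · rw [hg1]; simp
    · ext z
      rw [Set.mem_image, mem_edge_h]
      push_cast
      constructor
      · rintro ⟨w, hw, rfl⟩
        rw [he0] at hw
        rw [hg0, hg1]
        refine ⟨?_, ?_, ?_⟩ <;> linarith [hw.1, hw.2.1, hw.2.2]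
      · rintro ⟨h1, h2, h3⟩
        refine ⟨pt (a + 1 - z 0) (b + 1 - z 1), ?_, ?_⟩
        · rw [he0]
          simp only [pt_zero, pt_one]
          refine ⟨?_, ?_, ?_⟩ <;> linarith
        · apply ext2
          · rw [hg0]; simp
          · rw [hg1]; simp
  have hr : ∃ g : Plane ≃ᵢ Plane, g '' proto = tileAt a b ∧
      g '' edge (0, 0) (1, 0) = edge (a + 1, b) (a + 1, b + 1) := by
    let g : Plane ≃ᵢ Plane := rotIso.trans (IsometryEquiv.addRight (pt (a + 1) b))
    have hg0 : ∀ z, (g z) 0 = -z 1 + (a + 1) := fun z => by simp [g, rotIso_apply]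
    have hg1 : ∀ z, (g z) 1 = z 0 + b := fun z => by simp [g, rotIso_apply]
    refine ⟨g, ?_, ?_⟩
    · ext z
      rw [Set.mem_image]
      constructor
      · rintro ⟨w, hw, rfl⟩
        rw [mem_proto] at hw
        simp only [tileAt, Set.mem_ofPred_eq, hg0, hg1]
        refine ⟨⟨?_, ?_⟩, ⟨?_, ?_⟩⟩ <;> linarith [hw.1.1, hw.1.2, hw.2.1, hw.2.2]
      · rintro ⟨⟨h1, h2⟩, ⟨h3, h4⟩⟩
        refine ⟨pt (z 1 - b) (a + 1 - z 0), ?_, ?_⟩
        · rw [mem_proto]
          simp only [pt_zero, pt_one]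
          refine ⟨⟨?_, ?_⟩, ⟨?_, ?_⟩⟩ <;> linarith
        · apply ext2
          · rw [hg0]; simp
          · rw [hg1]; simp
    · ext z
      rw [Set.mem_image, mem_edge_v]
      push_cast
      constructor
      · rintro ⟨w, hw, rfl⟩
        rw [he0] at hw
        rw [hg0, hg1]
        refine ⟨?_, ?_, ?_⟩ <;> linarith [hw.1, hw.2.1, hw.2.2]
      · rintro ⟨h1, h2, h3⟩
        refine ⟨pt (z 1 - b) (a + 1 - z 0), ?_, ?_⟩
        · rw [he0]
          simp only [pt_zero, pt_one]
          refine ⟨?_, ?_, ?_⟩ <;> linarith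
        · apply ext2
          · rw [hg0]; simp
          · rw [hg1]; simp
  have hl : ∃ g : Plane ≃ᵢ Plane, g '' proto = tileAt a b ∧
      g '' edge (0, 0) (1, 0) = edge (a, b) (a, b + 1) := by
    let g : Plane ≃ᵢ Plane := rotIso.trans (IsometryEquiv.subLeft (pt a (b + 1)))
    have hg0 : ∀ z, (g z) 0 = a + z 1 := fun z => by simp [g, rotIso_apply]
    have hg1 : ∀ z, (g z) 1 = b + 1 - z 0 := fun z => by simp [g, rotIso_apply]
    refine ⟨g, ?_, ?_⟩
    · ext z
      rw [Set.mem_image]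
      constructor
      · rintro ⟨w, hw, rfl⟩
        rw [mem_proto] at hw
        simp only [tileAt, Set.mem_ofPred_eq, hg0, hg1]
        refine ⟨⟨?_, ?_⟩, ⟨?_, ?_⟩⟩ <;> linarith [hw.1.1, hw.1.2, hw.2.1, hw.2.2]
      · rintro ⟨⟨h1, h2⟩, ⟨h3, h4⟩⟩
        refine ⟨pt (b + 1 - z 1) (z 0 - a), ?_, ?_⟩
        · rw [mem_proto]
          simp only [pt_zero, pt_one]
          refine ⟨⟨?_, ?_⟩, ⟨?_, ?_⟩⟩ <;> linarith
        · apply ext2
          · rw [hg0]; simp
          · rw [hg1]; simp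
    · ext z
      rw [Set.mem_image, mem_edge_v]
      constructor
      · rintro ⟨w, hw, rfl⟩
        rw [he0] at hw
        rw [hg0, hg1]
        refine ⟨?_, ?_, ?_⟩ <;> linarith [hw.1, hw.2.1, hw.2.2]
      · rintro ⟨h1, h2, h3⟩
        refine ⟨pt (b + 1 - z 1) (z 0 - a), ?_, ?_⟩
        · rw [he0]
          simp only [pt_zero, pt_one]
          refine ⟨?_, ?_, ?_⟩ <;> linarith
        · apply ext2
          · rw [hg0]; simp
          · rw [hg1]; simp
  simp only [IsSide] at h
  rcases h with ⟨rfl, rfl⟩ | ⟨rfl, rfl⟩ | ⟨rfl, rfl⟩ | ⟨rfl, rfl⟩ | ⟨rfl, rfl⟩ | ⟨rfl, rfl⟩ |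
    ⟨rfl, rfl⟩ | ⟨rfl, rfl⟩
  · exact hb
  · rw [edge_comm (a + 1, b) (a, b)]; exact hb
  · exact hl
  · rw [edge_comm (a, b + 1) (a, b)]; exact hl
  · exact ht
  · rw [edge_comm (a + 1, b + 1) (a, b + 1)]; exact ht
  · exact hr
  · rw [edge_comm (a + 1, b + 1) (a + 1, b)]; exact hr

/-! ### The marking -/

/-- the lattice point whose outgoing edge is marked in the face `f` -/
noncomputable def sel (n : ℕ) (f : V) : V :=
  open Classical in
  if h : ∃ u, face n u = f then h.choose else (exists_side n f).choose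

theorem sel_side (n : ℕ) (f : V) : IsSide f (sel n f) (nxt n (sel n f)) := by
  unfold sel
  split_ifs with h
  · have h1 := isSide_face n h.choose
    have h2 := h.choose_spec
    rw [h2] at h1
    exact h1
  · exact (exists_side n f).choose_spec

theorem sel_face {n : ℕ} (hn : 1 ≤ n) (u : V) : sel n (face n u) = u := by
  unfold sel
  have h : ∃ v, face n v = face n u := ⟨u, rfl⟩
  rw [dif_pos h]
  exact face_injective hn h.choose_spec

theorem isArc_edge : IsArc (edge (0, 0) (1, 0)) := by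
  refine ⟨fun t => lerp (0, 0) (1, 0) t, ?_, ?_⟩
  · have hc : Continuous (fun t : Set.Icc (0 : ℝ) 1 => lerp (0, 0) (1, 0) t) :=
      (continuous_lerp _ _).comp continuous_subtype_val
    have hi : Function.Injective (fun t : Set.Icc (0 : ℝ) 1 => lerp (0, 0) (1, 0) t) := by
      intro s t h
      exact Subtype.ext (lerp_inj (by simp [Adj]) h)
    exact (hc.isClosedEmbedding hi).isEmbedding
  · ext z
    constructor
    · rintro ⟨t, rfl⟩
      exact ⟨t, t.2.1, t.2.2, rfl⟩
    · rintro ⟨t, h0, h1, rfl⟩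
      exact ⟨⟨t, h0, h1⟩, rfl⟩

theorem edge_sub_proto : edge (0, 0) (1, 0) ⊆ proto := by
  rintro z ⟨t, h0, h1, rfl⟩
  rw [mem_proto]
  simp [lerp, h0, h1]

/-- The marking with `n` arms. -/
noncomputable def mark (n : ℕ) : Marking where
  M := {edge (0, 0) (1, 0)}
  finite := Set.finite_singleton _
  arcs := by
    rintro A hA
    rw [Set.mem_singleton_iff] at hA
    subst hA
    exact ⟨isArc_edge, edge_sub_proto⟩
  σ a b := (exists_iso (a, b) _ _ (sel_side n (a, b))).choose
  σ_tile a b := (exists_iso (a, b) _ _ (sel_side n (a, b))).choose_spec.1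

theorem mark_U {n : ℕ} (hn : 1 ≤ n) :
    (mark n).U = ⋃ i : Fin n, ⋃ k, edge (arm i k) (arm i (k + 1)) := by
  have h1 : (mark n).U = ⋃ f : V, edge (sel n f) (nxt n (sel n f)) := by
    ext z
    simp only [Marking.U, mark, Set.mem_iUnion, Set.mem_singleton_iff]
    constructor
    · rintro ⟨a, b, A, rfl, hz⟩
      refine ⟨(a, b), ?_⟩
      rwa [(exists_iso (a, b) _ _ (sel_side n (a, b))).choose_spec.2] at hz
    · rintro ⟨⟨a, b⟩, hz⟩
      refine ⟨a, b, _, rfl, ?_⟩
      rwa [(exists_iso (a, b) _ _ (sel_side n (a, b))).choose_spec.2]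
  rw [h1]
  ext z
  simp only [Set.mem_iUnion]
  constructor
  · rintro ⟨f, hz⟩
    obtain ⟨i, k, hk⟩ := covered hn (sel n f)
    refine ⟨i, k, ?_⟩
    rwa [arm_succ, hk]
  · rintro ⟨i, k, hz⟩
    refine ⟨face n (arm i k), ?_⟩
    rw [sel_face hn]
    rwa [arm_succ] at hz

/-- For every positive integer `n` the square tiling admits a marking that makes it an `n`-armed
spiral. -/
theorem result (n : ℕ) (hn : 0 < n) : ∃ m : Marking, m.IsSpiral n := by
  have hn' : 1 ≤ n := hn
  have hadj : ∀ (i : Fin n) (k : ℕ), Adj (arm i k) (arm i (k + 1)) := by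
    intro i k
    rw [arm_succ]
    exact nxt_adj n _
  have hinj : ∀ i : Fin n, Function.Injective (arm i) := fun i k l h =>
    (arm_injective hn' h).2
  refine ⟨mark n, fun i => ⋃ k, edge (arm i k) (arm i (k + 1)), ?_, ?_, mark_U hn'⟩
  · intro i
    exact isUnboundedCurve_path (hinj i) (hadj i)
  · intro i j hij
    rw [Set.disjoint_left]
    intro z hz hz'
    simp only at hz hz'
    rw [← range_curve] at hz hz'
    obtain ⟨s, rfl⟩ := hz
    obtain ⟨t, h⟩ := hz'
    have hs := Nat.floor_le (show (0 : ℝ) ≤ s from s.2)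
    have hs' := Nat.lt_floor_add_one (s : ℝ)
    have ht := Nat.floor_le (show (0 : ℝ) ≤ t from t.2)
    have ht' := Nat.lt_floor_add_one (t : ℝ)
    unfold curve at h
    rcases edges_meet (hadj j _) (hadj i _) (by linarith) (by linarith) (by linarith)
      (by linarith) h with ⟨-, -, h3⟩ | ⟨h3, -⟩ | ⟨h3, -⟩
    · exact hij (arm_injective hn' h3).1.symm
    · exact hij (arm_injective hn' h3).1.symm
    · exact hij (arm_injective hn' h3).1.symm

end Pool.Agent.Results.MP_ca213f_co.AllArms
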